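import Pool.Agent.H43R3.SN.StmtsA

/-!
# Integral sum labellings of dense graphs are exclusive
-/

set_option autoImplicit false

open Finset

namespace Pool.Agent.Y403.SNB

/-- `l` is an integral sum labelling of the disjoint union of `G` with `s` isolated vertices. -/
def IsLabZ {V : Type} (G : SimpleGraph V) (s : ℕ) (l : V ⊕ Fin s → ℤ) : Prop :=
  Function.Injective l ∧
  (∀ u v : V, u ≠ v → (G.Adj u v ↔ ∃ w, l w = l (Sum.inl u) + l (Sum.inl v))) ∧
  (∀ (x : V ⊕ Fin s) (i : Fin s), x ≠ Sum.inr i → ∀ w, l w ≠ l x + l (Sum.inr i))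

/-- In a graph with few non-edges at every vertex the sum of the labels of an edge is never the
label of a vertex of the graph, for every integral sum labelling. -/
theorem excZ (V : Type) [Fintype V] [DecidableEq V] (G : SimpleGraph V)
    [DecidableRel G.Adj] (D s : ℕ) (l : V ⊕ Fin s → ℤ)
    (hD : ∀ v, (univ.filter (fun u => u ≠ v ∧ ¬ G.Adj v u)).card ≤ D)
    (hn : 8 * D + 10 ≤ Fintype.card V) (hl : IsLabZ G s l) :
    ∀ u v w : V, G.Adj u v → l (Sum.inl w) ≠ l (Sum.inl u) + l (Sum.inl v) := by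
  intro u v w huv hw
  obtain ⟨hinj, hadj, hiso⟩ := hl
  -- the bad set of a pair
  have hbad : ∀ a c : V, (univ.filter (fun z => ¬ (G.Adj a z ∧ G.Adj c z))).card ≤ 2 * D + 2 := by
    intro a c
    have hsub : (univ.filter (fun z => ¬ (G.Adj a z ∧ G.Adj c z))) ⊆
        ({a} ∪ univ.filter (fun u => u ≠ a ∧ ¬ G.Adj a u)) ∪
        ({c} ∪ univ.filter (fun u => u ≠ c ∧ ¬ G.Adj c u)) := by
      intro z hz
      simp only [mem_filter, mem_univ, true_and, mem_union, mem_singleton] at hz ⊢
      by_cases h1 : z = a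
      · exact Or.inl (Or.inl h1)
      by_cases h2 : z = c
      · exact Or.inr (Or.inl h2)
      by_cases h3 : G.Adj a z
      · right; right
        exact ⟨h2, fun h4 => hz ⟨h3, h4⟩⟩
      · left; right
        exact ⟨h1, h3⟩
    have h1 := hD a
    have h2 := hD c
    have h3 := card_le_card hsub
    have h4 := card_union_le ({a} ∪ univ.filter (fun u => u ≠ a ∧ ¬ G.Adj a u))
      ({c} ∪ univ.filter (fun u => u ≠ c ∧ ¬ G.Adj c u))
    have h5 := card_union_le {a} (univ.filter (fun u => u ≠ a ∧ ¬ G.Adj a u))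
    have h6 := card_union_le {c} (univ.filter (fun u => u ≠ c ∧ ¬ G.Adj c u))
    rw [card_singleton] at h5 h6
    omega
  -- the step
  have hstep : ∀ u v w : V, G.Adj u v → l (Sum.inl w) = l (Sum.inl u) + l (Sum.inl v) →
      ∀ z, G.Adj u z → G.Adj w z → ∃ y : V, l (Sum.inl y) = l (Sum.inl u) + l (Sum.inl z) := by
    intro u v w huv hw z huz hwz
    obtain ⟨y, hy⟩ := (hadj u z huz.ne).1 huz
    obtain ⟨y', hy'⟩ := (hadj w z hwz.ne).1 hwz
    cases y with
    | inl y₀ => exact ⟨y₀, hy⟩
    | inr i =>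
      exfalso
      refine hiso (Sum.inl v) i (by simp) y' ?_
      rw [hy', hy, hw]
      ring
  -- the good vertices
  set Z := univ.filter (fun z => G.Adj u z ∧ G.Adj w z) with hZ
  have hZc : (univ \ Z).card ≤ 2 * D + 2 := by
    have h2 := hbad u w
    have h3 : univ \ Z = univ.filter (fun z => ¬ (G.Adj u z ∧ G.Adj w z)) := by
      ext z
      simp [hZ]
    rw [h3]
    exact h2
  have hZcard : Fintype.card V ≤ Z.card + (2 * D + 2) := by
    have h1 := card_sdiff_add_card_eq_card (subset_univ Z)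
    rw [card_univ] at h1
    omega
  have hZne : Z.Nonempty := by
    rw [← card_pos]
    omega
  -- sums with a good vertex
  have hgood : ∀ z ∈ Z, ∃ (A : Finset V) (f : V → V), Fintype.card V ≤ A.card + (2 * D + 2) ∧
      ∀ z' ∈ A, l (Sum.inl (f z')) = l (Sum.inl z) + l (Sum.inl z') := by
    intro z hz
    simp only [hZ, mem_filter, mem_univ, true_and] at hz
    obtain ⟨y, hy⟩ := hstep u v w huv hw z hz.1 hz.2
    have h1 : ∀ z', G.Adj z z' → G.Adj y z' →
        ∃ y' : V, l (Sum.inl y') = l (Sum.inl z) + l (Sum.inl z') :=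
      hstep z u y hz.1.symm (by rw [hy, add_comm])
    choose! f hf using h1
    refine ⟨univ.filter (fun z' => G.Adj z z' ∧ G.Adj y z'), f, ?_, ?_⟩
    · have h1 := card_filter_add_card_filter_not (s := (univ : Finset V))
        (fun z' => G.Adj z z' ∧ G.Adj y z')
      have h2 := hbad z y
      rw [card_univ] at h1
      omega
    · intro z' hz'
      simp only [mem_filter, mem_univ, true_and] at hz'
      exact hf z' hz'.1 hz'.2
  obtain ⟨z₁, hz₁, hmax⟩ := exists_max_image Z (fun z => l (Sum.inl z)) hZne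
  obtain ⟨z₀, hz₀, hmin⟩ := exists_min_image Z (fun z => l (Sum.inl z)) hZne
  obtain ⟨A₁, f₁, hA₁, hf₁⟩ := hgood z₁ hz₁
  obtain ⟨A₀, f₀, hA₀, hf₀⟩ := hgood z₀ hz₀
  have hinj₁ : Set.InjOn f₁ A₁ := by
    intro a ha b hb hab
    have h1 := hf₁ a ha
    have h2 := hf₁ b hb
    rw [hab] at h1
    have h3 : l (Sum.inl a) = l (Sum.inl b) := by omega
    exact Sum.inl_injective (hinj h3)
  have hinj₀ : Set.InjOn f₀ A₀ := by
    intro a ha b hb hab
    have h1 := hf₀ a ha
    have h2 := hf₀ b hb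
    rw [hab] at h1
    have h3 : l (Sum.inl a) = l (Sum.inl b) := by omega
    exact Sum.inl_injective (hinj h3)
  have hlt : l (Sum.inl z₀) < l (Sum.inl z₁) := by
    have h1 : 1 < Z.card := by omega
    obtain ⟨a, ha, b, hb, hab⟩ := one_lt_card.1 h1
    have h2 := hmax a ha
    have h3 := hmax b hb
    have h4 := hmin a ha
    have h5 := hmin b hb
    have h6 : l (Sum.inl a) ≠ l (Sum.inl b) := fun h => hab (Sum.inl_injective (hinj h))
    have h7 : l (Sum.inl a) ≤ l (Sum.inl z₁) := h2
    have h8 : l (Sum.inl b) ≤ l (Sum.inl z₁) := h3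
    have h9 : l (Sum.inl z₀) ≤ l (Sum.inl a) := h4
    have h10 : l (Sum.inl z₀) ≤ l (Sum.inl b) := h5
    omega
  -- common sums
  have hsub : A₁.image f₁ ∩ A₀.image f₀ ⊆
      (univ \ Z).image f₁ ∪ ((univ \ Z).image f₀ ∪ {f₁ z₀}) := by
    intro y hy
    rw [mem_inter, mem_image, mem_image] at hy
    obtain ⟨⟨a, ha, hay⟩, ⟨b, hb, hby⟩⟩ := hy
    rw [mem_union, mem_union, mem_singleton, mem_image, mem_image]
    by_cases haZ : a ∈ Z
    · by_cases hbZ : b ∈ Z
      · right
        right
        have h1 := hf₁ a ha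
        have h2 := hf₀ b hb
        rw [hay] at h1
        rw [hby] at h2
        have h3 : l (Sum.inl z₀) ≤ l (Sum.inl a) := hmin a haZ
        have h4 : l (Sum.inl b) ≤ l (Sum.inl z₁) := hmax b hbZ
        have h5 : l (Sum.inl a) = l (Sum.inl z₀) := by omega
        rw [← hay, Sum.inl_injective (hinj h5)]
      · right
        left
        exact ⟨b, by simpa using hbZ, hby⟩
    · left
      exact ⟨a, by simpa using haZ, hay⟩
  have h1 := card_le_card hsub
  have h2 := card_union_le ((univ \ Z).image f₁) ((univ \ Z).image f₀ ∪ {f₁ z₀})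
  have h3 := card_union_le ((univ \ Z).image f₀) {f₁ z₀}
  have h4 : ((univ \ Z).image f₁).card ≤ _ := card_image_le
  have h5 : ((univ \ Z).image f₀).card ≤ _ := card_image_le
  have h6 := card_union_add_card_inter (A₁.image f₁) (A₀.image f₀)
  have h7 : (A₁.image f₁ ∪ A₀.image f₀).card ≤ Fintype.card V := card_le_univ _
  rw [card_image_of_injOn hinj₁, card_image_of_injOn hinj₀] at h6
  rw [card_singleton] at h3
  omega

end Pool.Agent.Y403.SNB
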