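import Pool.Agent.H43R3.SN.PartAB
import Pool.Agent.H43R3.SN.EXL_h835
import Pool.Agent.Y403.SNB.Exc

/-!
# The graph of an instance: integral labellings and exclusive labellings
-/

set_option autoImplicit false

open Finset

namespace Pool.Agent.Y403.SNB

open Pool.Agent.NPC Pool.Agent.H692R2 Pool.Agent.H43R3.SN

/-- An integral sum labelling with few isolated vertices gives a bin packing. -/
theorem partAZ (hE : TaskE) (hF : TaskF) (hG : TaskG) (hH : TaskH) (hCAP : TaskCAP)
    (hRUN : TaskRUN) (hHULL : TaskHULL) (hZONE : TaskZONE) (hCNT : TaskCNT)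
    {a : List ℕ} {b B s : ℕ} (hb : 1 ≤ b) (hpos : ∀ i < a.length, 1 ≤ a.getD i 0)
    (hsum : a.sum = b * B) (hs : s ≤ kI a b B)
    {l : Fin (vI a b B).length ⊕ Fin s → ℤ} (hl : IsLabZ (grI a b B).graph s l) : BPk a b B := by
  classical
  set S := pS b a.length with hS
  set K' := pK b a.length with hK'
  set N := pN b a.length B with hN
  set G : SimpleGraph (Fin (vI a b B).length) := (grI a b B).graph with hGd
  have hnd : (vI a b B).Nodup := vlist_nodup _ _ _ _ _
  have hlen : (vI a b B).length =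
      (S + 1) + ((S + 2 * b + 1) + (2 * K' * a.sum + ((S + 1) + N))) := vlist_length _ _ _ _ _
  have hNbig : 21 * pE b a.length B + 28 ≤ N := by
    rw [hN, pN]
    calc 21 * pE b a.length B + 28 = (3 * pE b a.length B + 4) * 7 := by ring
      _ ≤ (3 * pE b a.length B + 4) * (pE b a.length B + 7) := Nat.mul_le_mul_left _ (by omega)
  have hEbig : 4 * S ≤ pE b a.length B := by
    rw [pE, ← hS]; omega
  have hgetinj : ∀ i j : Fin (vI a b B).length, (vI a b B).get i = (vI a b B).get j → i = j :=
    fun i j h => (List.Nodup.get_inj_iff hnd).1 h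
  have hex : ∀ v : Vt, ∃ i : Fin (vI a b B).length, v ∈ vI a b B → (vI a b B).get i = v := by
    intro v
    by_cases hv : v ∈ vI a b B
    · obtain ⟨i, hi⟩ := List.mem_iff_get.1 hv
      exact ⟨i, fun _ => hi⟩
    · exact ⟨⟨0, by omega⟩, fun h => absurd h hv⟩
  choose idx hidx using hex
  have hVS : ∀ v, v ∈ VS S (2 * b) (2 * K') N a ↔ v ∈ vI a b B := fun v => mem_VS
  obtain ⟨hl1, hl3, hl4⟩ := hl
  have hexc := excZ (Fin (vI a b B).length) G (S + 2) s l
    (by
      intro v
      have h1 : ((univ.filter (fun u => u ≠ v ∧ ¬ G.Adj v u)).image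
          (fun i => (vI a b B).get i)).card ≤ S + 2 := by
        refine deg_all (S := S) (d := 2 * b) (K := 2 * K') (N := N) (a := a)
          (v := (vI a b B).get v) (List.get_mem _ _) _ ?_
        intro w hw
        obtain ⟨u, hu, rfl⟩ := Finset.mem_image.1 hw
        rw [Finset.mem_filter] at hu
        refine ⟨List.get_mem _ _, ?_⟩
        by_contra hcon
        exact hu.2.2 ((grI_adj v u).2 ⟨Ne.symm hu.2.1, hcon⟩)
      rw [Finset.card_image_of_injective _ (fun i j h => hgetinj i j h)] at h1
      convert h1)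
    (by rw [Fintype.card_fin]; omega) ⟨hl1, hl3, hl4⟩
  refine pre hE hF hG hH hCAP hRUN hHULL hZONE hCNT (S := S) (b := b) (B := B) (K' := K') (N := N)
    (H := pH b a.length) (E := pE b a.length B) (a := a) hb (by rw [hK', pK]; omega)
    (by rw [hS, pS]; omega) (by rw [hS, pS]; omega) rfl rfl rfl hpos hsum
    (fun v => l (Sum.inl (idx v))) (univ.image (fun i : Fin s => l (Sum.inr i)))
    ?_ ?_ ?_ ?_
  · intro u hu v hv huv
    have h2 : idx u = idx v := Sum.inl_injective (hl1 huv)
    rw [← hidx u ((hVS u).1 hu), ← hidx v ((hVS v).1 hv), h2]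
  · intro u hu v hv huv hng
    have hne : idx u ≠ idx v := by
      intro h1
      apply huv
      rw [← hidx u ((hVS u).1 hu), ← hidx v ((hVS v).1 hv), h1]
    have hadj : G.Adj (idx u) (idx v) := by
      rw [hGd, grI_adj, hidx u ((hVS u).1 hu), hidx v ((hVS v).1 hv)]
      exact ⟨hne, hng⟩
    obtain ⟨w, hw⟩ := (hl3 _ _ hne).1 hadj
    rcases w with w | w
    · exact absurd hw (hexc _ _ _ hadj)
    · rw [Finset.mem_image]
      exact ⟨w, Finset.mem_univ _, hw⟩
  · intro u hu v hv x hx y hy huv hxy hg hng heq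
    have hne : idx u ≠ idx v := by
      intro h1
      apply huv
      rw [← hidx u ((hVS u).1 hu), ← hidx v ((hVS v).1 hv), h1]
    have hne' : idx x ≠ idx y := by
      intro h1
      apply hxy
      rw [← hidx x ((hVS x).1 hx), ← hidx y ((hVS y).1 hy), h1]
    have hadj : G.Adj (idx x) (idx y) := by
      rw [hGd, grI_adj, hidx x ((hVS x).1 hx), hidx y ((hVS y).1 hy)]
      exact ⟨hne', hng⟩
    obtain ⟨w, hw⟩ := (hl3 _ _ hne').1 hadj
    have h3 : G.Adj (idx u) (idx v) := (hl3 _ _ hne).2 ⟨w, hw.trans heq.symm⟩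
    rw [hGd, grI_adj, hidx u ((hVS u).1 hu), hidx v ((hVS v).1 hv)] at h3
    exact h3.2 hg
  · have h1 : (univ.image (fun i : Fin s => l (Sum.inr i))).card ≤ s := by
      refine Finset.card_image_le.trans ?_
      rw [Finset.card_univ, Fintype.card_fin]
    have h2 : s ≤ 2 * XX S b B K' a.length N - (2 * S + 3) := hs
    have h3 : 2 * S + 3 ≤ 2 * XX S b B K' a.length N := by
      unfold XX; omega
    omega

/-- From sums to an exclusive sum labelling. -/
theorem exlX (V : Type) [Fintype V] [DecidableEq V] (G : SimpleGraph V) (g : V → ℕ)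
    (X : ℕ) (W : Finset ℕ) (hg : Function.Injective g) (hX : ∀ v, g v ≤ X)
    (hadj : ∀ u v, u ≠ v → (G.Adj u v ↔ g u + g v ∈ W)) (hW : ∀ w ∈ W, w ≤ 2 * X) :
    ∃ l : V ⊕ Fin W.card → ℕ, IsLab G W.card l ∧
      ∀ u v w : V, l (Sum.inl u) + l (Sum.inl v) ≠ l (Sum.inl w) := by
  set e := W.orderEmbOfFin rfl with he
  have heW : ∀ i, e i ∈ W := fun i => W.orderEmbOfFin_mem rfl i
  have heX : ∀ i, e i ≤ 2 * X := fun i => hW _ (heW i)
  have hsurj : ∀ w ∈ W, ∃ i, e i = w := by
    intro w hw
    have : w ∈ Set.range e := by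
      rw [he, Finset.range_orderEmbOfFin]; exact hw
    exact this
  let l : V ⊕ Fin W.card → ℕ := Sum.elim (fun v => g v + (2 * X + 1)) (fun i => 2 * (2 * X + 1) + e i)
  have hl1 : ∀ v, l (Sum.inl v) = g v + (2 * X + 1) := fun v => rfl
  have hl2 : ∀ i, l (Sum.inr i) = 2 * (2 * X + 1) + e i := fun i => rfl
  refine ⟨l, ⟨?_, ?_, ?_, ?_⟩, ?_⟩
  · rintro (a | a) (b | b) h
    · rw [hl1, hl1] at h
      rw [hg (by omega : g a = g b)]
    · rw [hl1, hl2] at h
      have := hX a
      omega
    · rw [hl1, hl2] at h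
      have := hX b
      omega
    · rw [hl2, hl2] at h
      rw [e.injective (by omega : e a = e b)]
  · rintro (a | a)
    · rw [hl1]; omega
    · rw [hl2]; omega
  · intro u v huv
    rw [hadj u v huv]
    constructor
    · intro h
      obtain ⟨i, hi⟩ := hsurj _ h
      refine ⟨Sum.inr i, ?_⟩
      rw [hl1, hl1, hl2, hi]
      omega
    · rintro ⟨w | i, h⟩
      · rw [hl1, hl1, hl1] at h
        have := hX w
        omega
      · rw [hl1, hl1, hl2] at h
        have h2 : g u + g v = e i := by omega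
        rw [h2]
        exact heW i
  · rintro (x | x) i hx (w | w)
    · rw [hl1, hl1, hl2]
      have := hX w
      omega
    · rw [hl1, hl2, hl2]
      have := heX w
      omega
    · rw [hl2, hl2, hl1]
      have := hX w
      omega
    · rw [hl2, hl2, hl2]
      have := heX w
      omega
  · intro u v w
    rw [hl1, hl1, hl1]
    have := hX w
    omega

/-- A bin packing gives an exclusive sum labelling with few isolated vertices. -/
theorem partBX (hCONS : TaskCONS) {a : List ℕ} {b B : ℕ} (hb : 1 ≤ b)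
    (hbp : BPk a b B) : ∃ s ≤ kI a b B, ∃ l, IsLab (grI a b B).graph s l ∧
      ∀ u v w, l (Sum.inl u) + l (Sum.inl v) ≠ l (Sum.inl w) := by
  classical
  set S := pS b a.length with hS
  set K' := pK b a.length with hK'
  set N := pN b a.length B with hN
  set X := XX S b B K' a.length N with hX
  have hnd : (vI a b B).Nodup := vlist_nodup _ _ _ _ _
  have hgetinj : ∀ i j : Fin (vI a b B).length, (vI a b B).get i = (vI a b B).get j → i = j :=
    fun i j h => (List.Nodup.get_inj_iff hnd).1 h
  obtain ⟨g, hg1, hg2, hg3⟩ := hCONS a b B K' N S hb (by rw [hK', pK]; omega) hbp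
  have hcU := card_UU (S := S) (b := b) (B := B) (K' := K') (r := a.length) (N := N) hb
  set W := Icc 1 (2 * X - 1) \ UU S b B K' a.length N with hW
  have hmem : ∀ i : Fin (vI a b B).length, (vI a b B).get i ∈ vlist S (2 * b) (2 * K') N a :=
    fun i => List.get_mem _ _
  have hWc : W.card = 2 * X - (2 * S + 3) := by
    rw [hW, Finset.card_sdiff_of_subset hcU.1, hcU.2, Nat.card_Icc]
    omega
  obtain ⟨l, hl⟩ := exlX (Fin (vI a b B).length) (grI a b B).graph
    (fun i => g ((vI a b B).get i)) X W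
    (by
      intro i j hij
      exact hgetinj i j (hg1 (hmem i) (hmem j) hij))
    (fun i => hg2 _ (hmem i))
    (by
      intro u v huv
      have hne : (vI a b B).get u ≠ (vI a b B).get v := fun h => huv (hgetinj u v h)
      have hgne : g ((vI a b B).get u) ≠ g ((vI a b B).get v) :=
        fun h => hne (hg1 (hmem u) (hmem v) h)
      have h1 := hg2 _ (hmem u)
      have h2 := hg2 _ (hmem v)
      have h3 := hg3 _ (hmem u) _ (hmem v) hne
      have hr : g ((vI a b B).get u) + g ((vI a b B).get v) ∈ Icc 1 (2 * X - 1) := by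
        rw [Finset.mem_Icc]; omega
      show (grI a b B).graph.Adj u v ↔ g ((vI a b B).get u) + g ((vI a b B).get v) ∈ W
      rw [hW, Finset.mem_sdiff, grI_adj]
      constructor
      · rintro ⟨_, h4⟩
        exact ⟨hr, fun h5 => h4 (h3.2 h5)⟩
      · rintro ⟨_, h4⟩
        exact ⟨huv, fun h5 => h4 (h3.1 h5)⟩)
    (by
      intro w hw
      rw [hW, Finset.mem_sdiff, Finset.mem_Icc] at hw
      omega)
  exact ⟨W.card, by rw [hWc]; exact le_refl _, l, hl⟩

end Pool.Agent.Y403.SNB
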